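import Pool.Agent.VMX.StmtsC

set_option autoImplicit false

/-!
Helper72, squad VMX (MP_e54c4c_gt), row QFF: four vertices.
-/

namespace Pool.Agent.VMX.H72

open Pool.Agent.PFS Pool.Agent.PFJ Pool.Agent.NBT

/-- Row QFF. -/
theorem qff (hFGE : FgeStmt) (hTPV : TpvStmt) (hBTV : BtvStmt) (hTPB : TpbStmt) (hABN : AbnStmt)
    (hPQB : PqbStmt) (hTRF : TrfStmt) (hFIN : KT3.FinStmt) : QffStmt := by
  intro n C Γ hCC hMax hw
  have hHK : KT3.HK C Γ (3 + 1) := ⟨hCC, by norm_num, hMax⟩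
  let a : Fin (3 + 1) → ℝ := ![3, 2, 1, 0]
  have a0 : a 0 = 3 := rfl
  have a1 : a 1 = 2 := rfl
  have a2 : a 2 = 1 := rfl
  have a3 : a 3 = 0 := rfl
  have ha0 : ∀ i, i ≠ 0 → a i < a 0 := by
    intro i hi
    fin_cases i
    · exact absurd rfl hi
    · show a 1 < a 0
      rw [a0, a1]
      norm_num
    · show a 2 < a 0
      rw [a0, a2]
      norm_num
    · show a 3 < a 0
      rw [a0, a3]
      norm_num
  have ha1 : ∀ i, i ≠ 0 → i ≠ 1 → a i < a 1 := by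
    intro i hi hi'
    fin_cases i
    · exact absurd rfl hi
    · exact absurd rfl hi'
    · show a 2 < a 1
      rw [a1, a2]
      norm_num
    · show a 3 < a 1
      rw [a1, a3]
      norm_num
  have ha3 : ∀ i, i ≠ 3 → a 3 < a i := by
    intro i hi
    fin_cases i
    · show a 3 < a 0
      rw [a0, a3]
      norm_num
    · show a 3 < a 1
      rw [a1, a3]
      norm_num
    · show a 3 < a 2
      rw [a2, a3]
      norm_num
    · exact absurd rfl hi
  obtain ⟨e1, S1, he1, h1⟩ := hTPV n 3 C Γ hHK a ha0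
  obtain ⟨e2, S2, he2, h2⟩ := hTPB n 3 C Γ hHK a 1 (by decide) ha1
  obtain ⟨e3, S3, he3, h3⟩ := hBTV n 3 C Γ hHK a 3 (by decide) ha3
  have hε : 0 < min e1 (min e2 e3) := lt_min he1 (lt_min he2 he3)
  obtain ⟨w, z, g, s, σ, lam, hσ, hFG⟩ := hFGE n 3 C Γ hHK hw a ha0 (min e1 (min e2 e3))
    (max (max S1 2) (max S2 S3)) hε
  have hσ1 : S1 ≤ σ := ((le_max_left _ _).trans (le_max_left _ _)).trans hσ
  have hσ0 : (2 : ℝ) ≤ σ := ((le_max_right _ _).trans (le_max_left _ _)).trans hσ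
  have hσ2 : S2 ≤ σ := ((le_max_left _ _).trans (le_max_right _ _)).trans hσ
  have hσ3 : S3 ≤ σ := ((le_max_right _ _).trans (le_max_right _ _)).trans hσ
  obtain ⟨ψa, hψa⟩ := h1 _ σ w z g s lam (min_le_left _ _) hσ1 hFG
  obtain ⟨c, lc, ψc, hψc, hlc1, hlc2, hcL⟩ := h2 _ σ w z g s lam hε
    ((min_le_right _ _).trans (min_le_left _ _)) hσ2 hFG
  obtain ⟨b, lb, ψb, hψb, hlb1, hlb2, hbw, hbL, hbB⟩ := h3 _ σ w z g s lam hε
    ((min_le_right _ _).trans (min_le_right _ _)) hσ3 hFG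
  rw [a0] at hψa
  rw [a1] at hlc1 hlc2
  rw [a3, zero_mul, Real.exp_zero] at hlb1 hlb2
  have hE : (4 : ℝ) < Real.exp σ := by
    have h5 : (2 : ℝ) < Real.exp 1 := by
      have := Real.exp_one_gt_d9
      linarith
    have h6 : Real.exp 2 = Real.exp 1 * Real.exp 1 := by
      rw [← Real.exp_add]
      norm_num
    have h7 : Real.exp 2 ≤ Real.exp σ := Real.exp_le_exp.2 hσ0
    nlinarith
  have hE2 : Real.exp (2 * σ) = Real.exp σ * Real.exp σ := by
    rw [← Real.exp_add]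
    ring_nf
  have hE3 : Real.exp (3 * σ) = Real.exp σ * Real.exp (2 * σ) := by
    rw [← Real.exp_add]
    ring_nf
  have hE2p : 0 < Real.exp (2 * σ) := Real.exp_pos _
  have hE3p : 0 < Real.exp (3 * σ) := Real.exp_pos _
  have hl1 := hFG.l1
  have hlb0 : 0 < lb := by linarith
  have hlblc : lb < lc := by nlinarith
  have hlcla : lc < Real.exp (3 * σ) * lam := by
    have h8 : Real.exp (3 * σ) * (1 / 2) ≤ Real.exp (3 * σ) * lam :=
      mul_le_mul_of_nonneg_left hl1 hE3p.le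
    have h9 : 4 * Real.exp (2 * σ) < Real.exp (3 * σ) := by
      rw [hE3]
      exact mul_lt_mul_of_pos_right hE hE2p
    linarith
  have hla0 : 0 < Real.exp (3 * σ) * lam := by linarith
  have he0 : s • act g (w 0) = (Real.exp (3 * σ) * lam) • w 0 := by
    have := hFG.e0
    rwa [a0] at this
  have hnot : w 0 + b ∉ C := hABN n 3 C Γ hCC (by norm_num) w hFG.pes g hFG.gm s
    (Real.exp (3 * σ) * lam) lb 3 b ψb hFG.s0 hla0 hlb0 (by decide) he0 hψb hbw
  by_cases hC : w 0 + c + b ∈ C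
  · obtain ⟨r1, r2⟩ := hTRF n 3 C Γ hHK w hFG.pes g hFG.gm s (Real.exp (3 * σ) * lam) lc lb c b
      ψa ψc ψb hFG.s0 hlb0 hlblc hlcla hFG.inv hψa hψc hψb hcL hbL hbB hnot hC
    exact ⟨2, le_rfl, _, r1, r2⟩
  · obtain ⟨w', hw', g', hg', l, hl, hl2⟩ := hPQB n C Γ hHK w hFG.pes g hFG.gm s
      (Real.exp (3 * σ) * lam) lc lb c b ψc ψb hFG.s0 hlb0 hlblc hlcla hFG.inv he0 hψc hψb hcL
      hbL hbB hC
    obtain ⟨w'', r1, r2⟩ := hFIN n C Γ 3 hHK w' hw' g' hg' l hl hl2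
    exact ⟨3, by norm_num, w'', r1, r2⟩

end Pool.Agent.VMX.H72
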